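import Pool.Agent.Q234.PE.Stm
import Pool.Agent.Q68.PL.JW

/-!
# Project PE, job CX: the rotation of the ring
-/

set_option autoImplicit false

open scoped BigOperators Matrix
open Finset Pool.Agent.TH235.PP

namespace Pool.Agent.Q214.PE.CX

open Pool.Agent

open Pool.Agent.Q234.PL Pool.Agent.Q234.PE
open Pool.Agent.Q68.PL (sgn_mul_self flip_self flip_ne sg par par_flip par_mul_self sg_mul_self DX Ao_eq Bo_eq fb)

variable {N : ℕ}

/-- the rotated configuration -/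
def rot (s : Cf N) : Cf N := fun i => s (i + 1)

/-- the rotated function -/
def T (g : Cf N → ℂ) : Cf N → ℂ := fun s => g (rot s)

/-- the rotation as an equivalence -/
def rotE : Cf N ≃ Cf N := (Equiv.addRight (1 : Fin (N + 1))).arrowCongr (Equiv.refl (Fin 2)) |>.symm

theorem rotE_apply (s : Cf N) : rotE s = rot s := rfl

theorem normSq_T (g : Cf N → ℂ) : normSq (T g) = normSq g := by
  unfold normSq T
  exact Equiv.sum_comp rotE fun s => ‖g s‖ ^ 2

theorem par_rot (s : Cf N) : par (rot s) = par s := by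
  unfold par rot
  exact Equiv.prod_comp (Equiv.addRight (1 : Fin (N + 1))) fun i => sgn (s i)

theorem flip_rot (j : Fin (N + 1)) (s : Cf N) : Q234.PL.flip j (rot s) = rot (Q234.PL.flip (j + 1) s) := by
  funext i
  by_cases h : i = j
  · subst h
    rw [flip_self]
    show s (i + 1) + 1 = Q234.PL.flip (i + 1) s (i + 1)
    rw [flip_self]
  · rw [flip_ne h]
    show s (i + 1) = Q234.PL.flip (j + 1) s (i + 1)
    rw [flip_ne]
    exact fun h' => h (add_right_cancel h')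

theorem sg_rot (j : Fin (N + 1)) (s : Cf N) :
    sgn (s 0) * sg j (rot s) = ∏ i ∈ univ.filter (fun i : Fin (N + 1) => i ≤ j), sgn (s i) := by
  have h0 : (0 : Fin (N + 1)) ∈ univ.filter (fun i : Fin (N + 1) => i ≤ j) := by simp
  rw [← Finset.mul_prod_erase _ _ h0]
  congr 1
  unfold sg rot
  refine Finset.prod_bij (fun i _ => i + 1) ?_ ?_ ?_ ?_
  · intro i hi
    rw [mem_filter] at hi
    have h1 : (i : ℕ) < j := hi.2
    have h2 : (j : ℕ) < N + 1 := j.2
    have h3 : ((i + 1 : Fin (N + 1)) : ℕ) = i + 1 := Fin.val_add_one_of_lt' (by omega)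
    rw [mem_erase, mem_filter]
    refine ⟨?_, mem_univ _, ?_⟩
    · intro h
      rw [h] at h3
      simp at h3
    · rw [Fin.le_def, h3]
      omega
  · intro a _ b _ h
    exact add_right_cancel h
  · intro b hb
    rw [mem_erase, mem_filter] at hb
    have h1 : (b : ℕ) ≠ 0 := fun h => hb.1 (Fin.ext h)
    have h2 : (b : ℕ) ≤ j := hb.2.2
    have h3 : (b : ℕ) - 1 < N + 1 := by omega
    refine ⟨⟨(b : ℕ) - 1, h3⟩, ?_, ?_⟩
    · rw [mem_filter]
      refine ⟨mem_univ _, ?_⟩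
      rw [Fin.lt_def]
      show (b : ℕ) - 1 < j
      omega
    · apply Fin.ext
      rw [Fin.val_add_one_of_lt' (by show (b : ℕ) - 1 + 1 < N + 1; omega)]
      show (b : ℕ) - 1 + 1 = b
      omega
  · intro i _
    rfl

/-- the sign -/
def et (ε : ℝ) (j : Fin (N + 1)) : ℝ := if j + 1 = 0 then ε else 1

theorem last_iff (j : Fin (N + 1)) : j + 1 = 0 ↔ (j : ℕ) = N := by
  constructor
  · intro h
    by_contra hne
    have h1 : (j : ℕ) + 1 < N + 1 := by omega
    have h2 := Fin.val_add_one_of_lt' h1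
    rw [h] at h2
    simp at h2
  · intro h
    have : j = Fin.last N := Fin.ext h
    rw [this]
    simp

theorem sg_key {ε : ℝ} {g : Cf N → ℂ} (hg : InPar ε g) (j : Fin (N + 1)) (s : Cf N) :
    sg j (rot s) * T g (Q234.PL.flip (j + 1) s) = (et ε j : ℂ) * (sgn (s 0) * (sg (j + 1) s * T g (Q234.PL.flip (j + 1) s))) := by
  have h1 := sg_rot j s
  have h2 := sgn_mul_self (s 0)
  unfold et
  by_cases hj : j + 1 = 0
  · rw [if_pos hj, hj]
    have h3 : sg (0 : Fin (N + 1)) s = 1 := by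
      unfold sg
      apply Finset.prod_eq_one
      intro i hi
      rw [mem_filter] at hi
      exact absurd hi.2 (Nat.not_lt_zero _)
    have h4 : ∏ i ∈ univ.filter (fun i : Fin (N + 1) => i ≤ j), sgn (s i) = par s := by
      have e : univ.filter (fun i : Fin (N + 1) => i ≤ j) = univ := by
        ext i
        simp only [mem_filter, mem_univ, true_and, iff_true]
        have h5 := (last_iff j).1 hj
        rw [Fin.le_def, h5]
        omega
      rw [e]
      rfl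
    rw [h4] at h1
    rw [h3]
    by_cases h5 : T g (Q234.PL.flip 0 s) = 0
    · rw [h5]; ring
    · have h6 := hg _ h5
      have h7 : par (rot (Q234.PL.flip 0 s)) = ((-ε : ℝ) : ℂ) := h6
      rw [par_rot, par_flip] at h7
      have h8 : par s = (ε : ℂ) := by
        push_cast at h7
        linear_combination -h7
      rw [h8] at h1
      linear_combination (-(sg j (rot s)) * T g (Q234.PL.flip 0 s)) * h2 + sgn (s 0) * T g (Q234.PL.flip 0 s) * h1
  · rw [if_neg hj]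
    have h4 : ∏ i ∈ univ.filter (fun i : Fin (N + 1) => i ≤ j), sgn (s i) = sg (j + 1) s := by
      unfold sg
      apply Finset.prod_congr _ fun _ _ => rfl
      ext i
      simp only [mem_filter, mem_univ, true_and]
      have h5 : (j : ℕ) ≠ N := fun h => hj ((last_iff j).2 h)
      have h6 : (j : ℕ) + 1 < N + 1 := by omega
      rw [Fin.le_def, Fin.lt_def, Fin.val_add_one_of_lt' h6]
      omega
    rw [h4] at h1
    rw [← h1]
    push_cast
    linear_combination (-(sg j (rot s)) * T g (Q234.PL.flip (j + 1) s)) * h2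

theorem DX_mulVec (f : Cf N → ℂ) (j : Fin (N + 1)) (g : Cf N → ℂ) (s : Cf N) :
    (DX f j *ᵥ g) s = f s * g (Q234.PL.flip j s) := by
  unfold DX
  rw [← Matrix.mulVec_mulVec, Matrix.mulVec_diagonal]
  congr 1
  unfold Xo Matrix.mulVec dotProduct
  simp

theorem Ao_key {ε : ℝ} {g : Cf N → ℂ} (hg : InPar ε g) (j : Fin (N + 1)) :
    T (Ao j *ᵥ g) = (et ε j : ℂ) • (Zo 0 *ᵥ (Ao (j + 1) *ᵥ T g)) := by
  funext s
  show (Ao j *ᵥ g) (rot s) = (et ε j : ℂ) * (Zo 0 *ᵥ (Ao (j + 1) *ᵥ T g)) s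
  unfold Zo
  rw [Matrix.mulVec_diagonal, Ao_eq, Ao_eq, DX_mulVec, DX_mulVec, flip_rot]
  exact sg_key hg j s

theorem Bo_key {ε : ℝ} {g : Cf N → ℂ} (hg : InPar ε g) (j : Fin (N + 1)) :
    T (Bo j *ᵥ g) = (et ε j : ℂ) • (Zo 0 *ᵥ (Bo (j + 1) *ᵥ T g)) := by
  funext s
  show (Bo j *ᵥ g) (rot s) = (et ε j : ℂ) * (Zo 0 *ᵥ (Bo (j + 1) *ᵥ T g)) s
  unfold Zo
  rw [Matrix.mulVec_diagonal, Bo_eq, Bo_eq, DX_mulVec, DX_mulVec, flip_rot]
  have h1 := sg_key hg j s
  have h2 : g (rot (Q234.PL.flip (j + 1) s)) = T g (Q234.PL.flip (j + 1) s) := rfl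
  unfold fb
  rw [h2]
  have h3 : rot s j = s (j + 1) := rfl
  rw [h3]
  linear_combination (-Complex.I * sgn (s (j + 1))) * h1

theorem shift_apply (ε : ℝ) (w : Fin (N + 1) → ℝ) (j : Fin (N + 1)) :
    (shiftM N ε *ᵥ w) (j + 1) = et ε j * w j := by
  unfold Matrix.mulVec dotProduct shiftM et
  rw [Finset.sum_eq_single j]
  · show (if j + 1 = j + 1 then (if j + 1 = 0 then ε else 1) else 0) * w j = (if j + 1 = 0 then ε else 1) * w j
    rw [if_pos rfl]
  · intro b _ hb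
    show (if j + 1 = b + 1 then (if j + 1 = 0 then ε else 1) else 0) * w b = 0
    rw [if_neg, zero_mul]
    exact fun h => hb (add_right_cancel h).symm
  · intro h
    exact absurd (mem_univ _) h

theorem annih_mulVec (R : Matrix (Fin (N + 1)) (Fin (N + 1)) ℝ) (w : Fin (N + 1) → ℝ) (g : Cf N → ℂ) :
    annih R w *ᵥ g = ∑ j, (((R *ᵥ w) j : ℝ) : ℂ) • (Ao j *ᵥ g) +
      Complex.I • ∑ j, (((Rᵀ *ᵥ w) j : ℝ) : ℂ) • (Bo j *ᵥ g) := by
  unfold annih
  rw [Matrix.add_mulVec, Matrix.smul_mulVec, Matrix.sum_mulVec, Matrix.sum_mulVec]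
  congr 1
  · exact sum_congr rfl fun j _ => Matrix.smul_mulVec _ _ _
  · congr 1
    exact sum_congr rfl fun j _ => Matrix.smul_mulVec _ _ _

theorem T_add (f g : Cf N → ℂ) : T (f + g) = T f + T g := rfl
theorem T_smul (c : ℂ) (f : Cf N → ℂ) : T (c • f) = c • T f := rfl
theorem T_sum (f : Fin (N + 1) → Cf N → ℂ) : T (∑ j, f j) = ∑ j, T (f j) := by
  funext s
  show (∑ j, f j) (rot s) = (∑ j, T (f j)) s
  rw [Finset.sum_apply, Finset.sum_apply]
  rfl

theorem comm_S {ε lam : ℝ} {R : Matrix (Fin (N + 1)) (Fin (N + 1)) ℝ} (hl : 0 < lam) (hR : RootOf N ε lam R) :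
    shiftM N ε * R = R * shiftM N ε ∧ shiftM N ε * Rᵀ = Rᵀ * shiftM N ε := by
  have h1 := hR.sq
  have h2 : lam • shiftM N ε = 1 - R * R := by rw [h1, sub_sub_cancel]
  have key : ∀ Q : Matrix (Fin (N + 1)) (Fin (N + 1)) ℝ, R * Q = Q * R → shiftM N ε * Q = Q * shiftM N ε := by
    intro Q hQ
    have h3 : (lam • shiftM N ε) * Q = Q * (lam • shiftM N ε) := by
      rw [h2, Matrix.sub_mul, Matrix.mul_sub, Matrix.one_mul, Matrix.mul_one, Matrix.mul_assoc, hQ,
        ← Matrix.mul_assoc, hQ, Matrix.mul_assoc]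
    rw [Matrix.smul_mul, Matrix.mul_smul] at h3
    exact smul_right_injective _ hl.ne' h3
  exact ⟨key R rfl, key Rᵀ hR.normal⟩

theorem annih_key {ε lam : ℝ} {R : Matrix (Fin (N + 1)) (Fin (N + 1)) ℝ} (hl : 0 < lam) (hR : RootOf N ε lam R)
    {g : Cf N → ℂ} (hg : InPar ε g) (w : Fin (N + 1) → ℝ) :
    T (annih R w *ᵥ g) = Zo 0 *ᵥ (annih R (shiftM N ε *ᵥ w) *ᵥ T g) := by
  obtain ⟨hc1, hc2⟩ := comm_S hl hR
  have e1 : R *ᵥ (shiftM N ε *ᵥ w) = shiftM N ε *ᵥ (R *ᵥ w) := by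
    rw [Matrix.mulVec_mulVec, Matrix.mulVec_mulVec, hc1]
  have e2 : Rᵀ *ᵥ (shiftM N ε *ᵥ w) = shiftM N ε *ᵥ (Rᵀ *ᵥ w) := by
    rw [Matrix.mulVec_mulVec, Matrix.mulVec_mulVec, hc2]
  rw [annih_mulVec, annih_mulVec, e1, e2, T_add, T_smul, T_sum, T_sum, Matrix.mulVec_add, Matrix.mulVec_smul]
  congr 1
  · rw [Matrix.mulVec_sum, ← Equiv.sum_comp (Equiv.addRight (1 : Fin (N + 1)))
      (fun j => Zo 0 *ᵥ (((shiftM N ε *ᵥ (R *ᵥ w)) j : ℝ) : ℂ) • (Ao j *ᵥ T g))]
    refine sum_congr rfl fun j _ => ?_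
    rw [T_smul, Ao_key hg, Equiv.coe_addRight, shift_apply, Matrix.mulVec_smul, smul_smul]
    push_cast
    rw [mul_comm]
  · congr 1
    rw [Matrix.mulVec_sum, ← Equiv.sum_comp (Equiv.addRight (1 : Fin (N + 1)))
      (fun j => Zo 0 *ᵥ (((shiftM N ε *ᵥ (Rᵀ *ᵥ w)) j : ℝ) : ℂ) • (Bo j *ᵥ T g))]
    refine sum_congr rfl fun j _ => ?_
    rw [T_smul, Bo_key hg, Equiv.coe_addRight, shift_apply, Matrix.mulVec_smul, smul_smul]
    push_cast
    rw [mul_comm]

theorem normSq_Zo (f : Cf N → ℂ) : normSq (Zo 0 *ᵥ f) = normSq f := by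
  unfold normSq Zo
  refine sum_congr rfl fun s _ => ?_
  rw [Matrix.mulVec_diagonal, norm_mul]
  have h : ‖sgn (s 0)‖ = 1 := by
    unfold sgn
    split_ifs <;> simp
  rw [h, one_mul]

theorem normSq_smul_one (c : ℂ) (hc : ‖c‖ = 1) (f : Cf N → ℂ) : normSq (c • f) = normSq f := by
  unfold normSq
  refine sum_congr rfl fun s _ => ?_
  rw [Pi.smul_apply, smul_eq_mul, norm_mul, hc, one_mul]

theorem shift_ev (ε : ℝ) (k : Fin (N + 1)) : shiftM N ε *ᵥ ev k = et ε k • ev (k + 1) := by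
  funext i
  obtain ⟨j, rfl⟩ : ∃ j, i = j + 1 := ⟨i - 1, (sub_add_cancel i 1).symm⟩
  rw [shift_apply]
  show et ε j * (ev k) j = et ε k * (ev (k + 1)) (j + 1)
  unfold ev
  by_cases h : j = k
  · subst h
    rw [Pi.single_eq_same, Pi.single_eq_same]
  · rw [Pi.single_eq_of_ne h, Pi.single_eq_of_ne (fun h' => h (add_right_cancel h')), mul_zero, mul_zero]

theorem annih_smul (R : Matrix (Fin (N + 1)) (Fin (N + 1)) ℝ) (c : ℝ) (w : Fin (N + 1) → ℝ) (g : Cf N → ℂ) :
    annih R (c • w) *ᵥ g = (c : ℂ) • (annih R w *ᵥ g) := by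
  rw [annih_mulVec, annih_mulVec, Matrix.mulVec_smul, Matrix.mulVec_smul, smul_add]
  congr 1
  · rw [Finset.smul_sum]
    refine sum_congr rfl fun j _ => ?_
    rw [Pi.smul_apply, smul_smul, smul_eq_mul]
    push_cast
    rfl
  · rw [smul_comm (c : ℂ) Complex.I]
    congr 1
    rw [Finset.smul_sum]
    refine sum_congr rfl fun j _ => ?_
    rw [Pi.smul_apply, smul_smul, smul_eq_mul]
    push_cast
    rfl

theorem main : CovX := by
  intro N ε lam R hε hl hR f hf k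
  have h1 := annih_key hl hR hf (ev k)
  rw [shift_ev, annih_smul] at h1
  have h2 : normSq (annih R (ev k) *ᵥ f) = normSq (T (annih R (ev k) *ᵥ f)) := (normSq_T _).symm
  rw [h2, h1, normSq_Zo, normSq_smul_one]
  · rfl
  · unfold et
    split_ifs
    · rcases hε with rfl | rfl <;> simp
    · simp

end Pool.Agent.Q214.PE.CX
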