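import Pool.Agent.Q234.PE.Stm
import Pool.Agent.Q182.PL.PK

/-!
# Project PE, job KP: a kernel vector for all the parity sectors
-/

set_option autoImplicit false

open scoped BigOperators Matrix
open Finset Pool.Agent.TH235.PP Pool.Agent.Q234.PL

namespace Pool.Agent.Q214.PE.KP

open Pool.Agent.Q182.PL Pool.Agent.Q234.PE

open Classical in
/-- the factorization -/
theorem fact {L m D : ℕ} [NeZero L] {φ : (Site L → Fin 2) → ℂ} (hD0 : 0 < D) (hφ : IsPEPS D φ) :
    ∃ (F : ({e : Site L ⊕ Site L // bd m e} → Fin D) → (Fin m × Fin m → Fin 2) → ℂ)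
      (G : ({e : Site L ⊕ Site L // bd m e} → Fin D) → (Site L → Fin 2) → ℂ),
      ∀ p t, φ (tpaste p t) = ∑ β, F β p * G β t := by
  obtain ⟨A, hA⟩ := hφ
  -- the two factors
  let k0 : Fin D := ⟨0, hD0⟩
  let TT : Site L → Fin 2 → (Site L ⊕ Site L → Fin D) → ℂ := fun x a l =>
    A x a (l (.inl (x.1 - 1, x.2))) (l (.inl x)) (l (.inr (x.1, x.2 - 1))) (l (.inr x))
  let F : (Fin m × Fin m → Fin 2) → (Site L ⊕ Site L → Fin D) → ℂ := fun p l =>
    ∏ x ∈ univ.filter (inB (L := L) m), TT x (tpaste p (fun _ => 0) x) l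
  let G : (Site L → Fin 2) → (Site L ⊕ Site L → Fin D) → ℂ := fun t l =>
    ∏ x ∈ univ.filter (fun x => ¬ inB (L := L) m x), TT x (t x) l
  have hprod : ∀ p t, φ (tpaste p t) = ∑ l, F p l * G t l := by
    intro p t
    rw [hA]
    unfold contract
    rw [← Fintype.sum_prod_type']
    refine Fintype.sum_equiv (Equiv.sumArrowEquivProdArrow (Site L) (Site L) (Fin D)).symm _ _
      fun l => ?_
    obtain ⟨h, v⟩ := l
    rw [← prod_filter_mul_prod_filter_not univ (inB (L := L) m)]
    congr 1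
    · refine prod_congr rfl fun x hx => ?_
      have hx' : x.1.val < m ∧ x.2.val < m := (mem_filter.1 hx).2
      have h1 : tpaste p t x = tpaste p (fun _ => 0) x := by
        unfold tpaste
        rw [dif_pos hx', dif_pos hx']
      rw [h1]
      rfl
    · refine prod_congr rfl fun x hx => ?_
      have hx' : ¬ (x.1.val < m ∧ x.2.val < m) := (mem_filter.1 hx).2
      have h1 : tpaste p t x = t x := by
        unfold tpaste
        rw [dif_neg hx']
      rw [h1]
      rfl
  have hF : ∀ p, ∀ l l' : Site L ⊕ Site L → Fin D, (∀ e, bd m e ∨ inn m e → l e = l' e) →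
      F p l = F p l' := by
    intro p l l' h
    refine prod_congr rfl fun x hx => ?_
    have hx' : inB m x := (mem_filter.1 hx).2
    have e1 : l (.inl (x.1 - 1, x.2)) = l' (.inl (x.1 - 1, x.2)) := by
      apply h
      by_cases hc : inB m (x.1 - 1, x.2)
      · exact Or.inr hc
      · left
        show ¬ (inB m (x.1 - 1, x.2) ↔ inB m ((x.1 - 1, x.2).1 + 1, (x.1 - 1, x.2).2))
        rw [sub_add_self]
        exact fun h => hc (h.2 hx')
    have e2 : l (.inl x) = l' (.inl x) := h _ (Or.inr hx')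
    have e3 : l (.inr (x.1, x.2 - 1)) = l' (.inr (x.1, x.2 - 1)) := by
      apply h
      by_cases hc : inB m (x.1, x.2 - 1)
      · exact Or.inr hc
      · left
        show ¬ (inB m (x.1, x.2 - 1) ↔ inB m ((x.1, x.2 - 1).1, (x.1, x.2 - 1).2 + 1))
        rw [sub_add_self']
        exact fun h => hc (h.2 hx')
    have e4 : l (.inr x) = l' (.inr x) := h _ (Or.inr hx')
    show A x _ _ _ _ _ = A x _ _ _ _ _
    rw [e1, e2, e3, e4]
  have hG : ∀ t, ∀ l l' : Site L ⊕ Site L → Fin D, (∀ e, bd m e ∨ ¬ inn m e → l e = l' e) →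
      G t l = G t l' := by
    intro t l l' h
    refine prod_congr rfl fun x hx => ?_
    have hx' : ¬ inB m x := (mem_filter.1 hx).2
    have e1 : l (.inl (x.1 - 1, x.2)) = l' (.inl (x.1 - 1, x.2)) := by
      apply h
      by_cases hc : inB m (x.1 - 1, x.2)
      · left
        show ¬ (inB m (x.1 - 1, x.2) ↔ inB m ((x.1 - 1, x.2).1 + 1, (x.1 - 1, x.2).2))
        rw [sub_add_self]
        exact fun h => hx' (h.1 hc)
      · exact Or.inr hc
    have e2 : l (.inl x) = l' (.inl x) := h _ (Or.inr hx')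
    have e3 : l (.inr (x.1, x.2 - 1)) = l' (.inr (x.1, x.2 - 1)) := by
      apply h
      by_cases hc : inB m (x.1, x.2 - 1)
      · left
        show ¬ (inB m (x.1, x.2 - 1) ↔ inB m ((x.1, x.2 - 1).1, (x.1, x.2 - 1).2 + 1))
        rw [sub_add_self']
        exact fun h => hx' (h.1 hc)
      · exact Or.inr hc
    have e4 : l (.inr x) = l' (.inr x) := h _ (Or.inr hx')
    show A x _ _ _ _ _ = A x _ _ _ _ _
    rw [e1, e2, e3, e4]
  refine ⟨fun β p => ∑ a, F p (glue (bd m) (inn m) β a fun _ => k0),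
    fun β t => ∑ r, G t (glue (bd m) (inn m) β (fun _ => k0) r), fun p t => ?_⟩
  rw [hprod]
  exact split_sum (bd m) (inn m) k0 (F p) (G t) (hF p) (hG t)

/-- the parity of a row of the block -/
noncomputable def q {m : ℕ} (p : Fin m × Fin m → Fin 2) (y : Fin m) : ℂ := ∏ x : Fin m, sgn (p (x, y))

theorem sgn_pm (a : Fin 2) : sgn a = 1 ∨ sgn a = -1 := by
  unfold sgn
  split_ifs <;> simp

theorem prod_pm {ι : Type} (s : Finset ι) (f : ι → Fin 2) : ∏ i ∈ s, sgn (f i) = 1 ∨ ∏ i ∈ s, sgn (f i) = -1 := by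
  classical
  induction s using Finset.induction_on with
  | empty => left; rfl
  | insert a s ha ih =>
    rw [prod_insert ha]
    rcases ih with h | h <;> rcases sgn_pm (f a) with h' | h' <;> rw [h, h'] <;> simp

theorem row_val {N : ℕ} (y : ZMod (N + 1)) (x : Fin (N + 1)) : (row y x).1.val = x := rfl

theorem par_low {N m : ℕ} (hm : m < N + 1) (p : Fin m × Fin m → Fin 2) (t : Site (N + 1) → Fin 2)
    (y : ZMod (N + 1)) (hy : y.val < m) :
    ∏ x : Fin (N + 1), sgn (tpaste p t (row y x)) =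
      q p ⟨y.val, hy⟩ * ∏ x ∈ univ.filter (fun x : Fin (N + 1) => ¬ (x : ℕ) < m), sgn (t (row y x)) := by
  rw [← prod_filter_mul_prod_filter_not univ (fun x : Fin (N + 1) => (x : ℕ) < m)]
  congr 1
  · unfold q
    symm
    refine prod_bij (fun x _ => (⟨x.1, by omega⟩ : Fin (N + 1))) ?_ ?_ ?_ ?_
    · intro x _
      rw [mem_filter]
      exact ⟨mem_univ _, x.2⟩
    · intro a _ b _ h
      apply Fin.ext
      exact congrArg (fun z : Fin (N + 1) => (z : ℕ)) h
    · intro b hb
      rw [mem_filter] at hb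
      exact ⟨⟨b.1, hb.2⟩, mem_univ _, rfl⟩
    · intro x _
      have h1 : (row y (⟨x.1, by omega⟩ : Fin (N + 1))).1.val = x.1 := row_val y _
      unfold tpaste
      rw [dif_pos ⟨by rw [h1]; exact x.2, hy⟩]
      congr 2
  · refine prod_congr rfl fun x hx => ?_
    rw [mem_filter] at hx
    unfold tpaste
    rw [dif_neg]
    intro h
    exact hx.2 (by rw [← row_val y x]; exact h.1)

theorem par_high {N m : ℕ} (p : Fin m × Fin m → Fin 2) (t : Site (N + 1) → Fin 2)
    (y : ZMod (N + 1)) (hy : ¬ y.val < m) :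
    ∏ x : Fin (N + 1), sgn (tpaste p t (row y x)) = ∏ x : Fin (N + 1), sgn (t (row y x)) := by
  refine prod_congr rfl fun x _ => ?_
  unfold tpaste
  rw [dif_neg]
  exact fun h => hy h.2

theorem cond_iff {N m : ℕ} (hm : m < N + 1) (p p0 : Fin m × Fin m → Fin 2) (t : Site (N + 1) → Fin 2)
    (c : ZMod (N + 1) → ℂ) (h0 : ∀ y, ∏ x : Fin (N + 1), sgn (tpaste p0 t (row y x)) = c y) :
    (∀ y, ∏ x : Fin (N + 1), sgn (tpaste p t (row y x)) = c y) ↔ ∀ y, q p y = q p0 y := by
  constructor
  · intro h y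
    have hy1 : ((y.1 : ℕ) : ZMod (N + 1)).val = y.1 := ZMod.val_natCast_of_lt (by omega)
    have hy : ((y.1 : ℕ) : ZMod (N + 1)).val < m := by rw [hy1]; exact y.2
    have h1 := h ((y.1 : ℕ) : ZMod (N + 1))
    have h2 := h0 ((y.1 : ℕ) : ZMod (N + 1))
    rw [par_low hm p t _ hy] at h1
    rw [par_low hm p0 t _ hy] at h2
    have h3 : (⟨((y.1 : ℕ) : ZMod (N + 1)).val, hy⟩ : Fin m) = y := Fin.ext hy1
    rw [h3] at h1 h2
    have h4 : ∏ x ∈ univ.filter (fun x : Fin (N + 1) => ¬ (x : ℕ) < m), sgn (t (row ((y.1 : ℕ) : ZMod (N + 1)) x)) ≠ 0 := by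
      rcases prod_pm (univ.filter (fun x : Fin (N + 1) => ¬ (x : ℕ) < m))
        (fun x => t (row ((y.1 : ℕ) : ZMod (N + 1)) x)) with h | h <;> rw [h] <;> simp
    exact mul_right_cancel₀ h4 (h1.trans h2.symm)
  · intro h y
    rw [← h0 y]
    by_cases hy : y.val < m
    · rw [par_low hm p t _ hy, par_low hm p0 t _ hy, h]
    · rw [par_high p t y hy, par_high p0 t y hy]

open Classical in
theorem main : KernelPar := by
  intro N m D φ hm hD hφ
  have hm1 : 1 ≤ m := by
    rcases Nat.eq_zero_or_pos m with h | h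
    · rw [h] at hD
      simp at hD
    · exact h
  -- the case without labels
  rcases Nat.eq_zero_or_pos D with hD0 | hD0
  · subst hD0
    refine ⟨fun _ => 1, fun h => one_ne_zero (congrFun h fun _ => 0), fun σ t => ?_⟩
    refine sum_eq_zero fun p _ => ?_
    have h1 : φ (tpaste p t) = 0 := by
      obtain ⟨A, hA⟩ := hφ
      rw [hA]
      unfold contract
      have : IsEmpty (Site (N + 1) → Fin 0) := ⟨fun f => (f 0).elim0⟩
      rw [Fintype.sum_empty]
    unfold sec
    rw [h1, ite_self, mul_zero]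
  obtain ⟨F, G, hFG⟩ := fact (m := m) hD0 hφ
  let I := {e : Site (N + 1) ⊕ Site (N + 1) // bd m e} → Fin D
  let Lm : ((Fin m × Fin m → Fin 2) → ℂ) →ₗ[ℂ] ((Fin m → Bool) × I) → ℂ :=
    Matrix.mulVecLin (Matrix.of fun (ρβ : (Fin m → Bool) × I)
      (p : Fin m × Fin m → Fin 2) => if ∀ y, q p y = (if ρβ.1 y then 1 else -1) then F ρβ.2 p else 0)
  have hcard : Module.finrank ℂ (((Fin m → Bool) × I) → ℂ) <
      Module.finrank ℂ ((Fin m × Fin m → Fin 2) → ℂ) := by
    rw [Module.finrank_fintype_fun_eq_card, Module.finrank_fintype_fun_eq_card]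
    simp only [I, Fintype.card_fun, Fintype.card_fin, Fintype.card_prod, Fintype.card_bool]
    refine lt_of_le_of_lt ?_ hD
    exact Nat.mul_le_mul_left _ (Nat.pow_le_pow_right hD0 (card_bd m hm))
  have hker := LinearMap.ker_ne_bot_of_finrank_lt (f := Lm) hcard
  obtain ⟨v, hv, hv0⟩ := (Submodule.ne_bot_iff _).1 hker
  refine ⟨v, hv0, fun σ t => ?_⟩
  have hv' : ∀ (ρ : Fin m → Bool) (β : I),
      ∑ p, (if ∀ y, q p y = (if ρ y then 1 else -1) then F β p else 0) * v p = 0 := fun ρ β =>
    congrFun (LinearMap.mem_ker.1 hv) (ρ, β)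
  by_cases hp0 : ∃ p0 : Fin m × Fin m → Fin 2,
      ∀ y, ∏ x : Fin (N + 1), sgn (tpaste p0 t (row y x)) = ((-(σ y) : ℝ) : ℂ)
  · obtain ⟨p0, hp0⟩ := hp0
    let ρ : Fin m → Bool := fun y => decide (q p0 y = 1)
    have hρ : ∀ y, q p0 y = (if ρ y then 1 else -1) := by
      intro y
      simp only [ρ]
      by_cases h : q p0 y = 1
      · rw [if_pos (by simpa using h)]
        exact h
      · rw [if_neg (by simpa using h)]
        exact (prod_pm univ (fun x => p0 (x, y))).resolve_left h
    have hsec : ∀ p, sec σ φ (tpaste p t) =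
        if ∀ y, q p y = (if ρ y then 1 else -1) then φ (tpaste p t) else 0 := by
      intro p
      unfold sec
      have h1 := cond_iff hm p p0 t (fun y => ((-(σ y) : ℝ) : ℂ)) hp0
      have h2 : (∀ y, q p y = q p0 y) ↔ ∀ y, q p y = (if ρ y then 1 else -1) := by
        constructor
        · intro h y
          rw [h y, hρ y]
        · intro h y
          rw [h y, hρ y]
      rw [h2] at h1
      by_cases h3 : ∀ y, q p y = (if ρ y then 1 else -1)
      · rw [if_pos h3, if_pos (h1.2 h3)]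
      · rw [if_neg h3, if_neg (fun h => h3 (h1.1 h))]
    calc ∑ p, v p * sec σ φ (tpaste p t)
        = ∑ p, ∑ β : I, G β t * ((if ∀ y, q p y = (if ρ y then 1 else -1) then F β p else 0) * v p) := by
          refine sum_congr rfl fun p _ => ?_
          rw [hsec p]
          by_cases h3 : ∀ y, q p y = (if ρ y then 1 else -1)
          · rw [if_pos h3, hFG, mul_sum]
            refine sum_congr rfl fun β _ => ?_
            rw [if_pos h3]
            ring
          · rw [if_neg h3, mul_zero]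
            symm
            refine sum_eq_zero fun β _ => ?_
            rw [if_neg h3, zero_mul, mul_zero]
      _ = 0 := by
          rw [sum_comm]
          refine sum_eq_zero fun β _ => ?_
          rw [← mul_sum, hv' ρ β, mul_zero]
  · refine sum_eq_zero fun p _ => ?_
    unfold sec
    rw [if_neg (fun h => hp0 ⟨p, h⟩), mul_zero]

end Pool.Agent.Q214.PE.KP
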