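import Pool.Agent.Q234.PE.Stm

/-!
# Project PE, job LH: interactions on a larger region
-/

set_option autoImplicit false

open scoped BigOperators Matrix
open Finset Pool.Agent.TH235.PP Pool.Agent.Q234.PL

namespace Pool.Agent.Q214.PE.LH

open Pool.Agent Pool.Agent.Q234.PE

theorem term_eq {B R : Finset (ℤ × ℤ)} (hBR : B ⊆ R) (h : Matrix (B → Fin 2) (B → Fin 2) ℂ) (L : ℕ) [NeZero L]
    (hL : Set.InjOn (H4R2.toTorus L) (R : Set (ℤ × ℤ))) (u : Site L) :
    H4R2.term R (lift hBR h) L u = H4R2.term B h L u := by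
  classical
  ext s t
  unfold H4R2.term
  by_cases hc : ∀ v, (∀ x : B, H4R2.toTorus L x + u ≠ v) → s v = t v
  · rw [if_pos hc, if_pos (fun v hv => hc v fun x => hv ⟨x, hBR x.2⟩)]
    unfold lift
    rw [if_pos]
    intro x hx
    refine hc _ fun y hy => hx ?_
    have h1 := hL (hBR y.2) x.2 (add_right_cancel hy)
    rw [← h1]
    exact y.2
  · rw [if_neg hc]
    by_cases hd : ∀ v, (∀ x : R, H4R2.toTorus L x + u ≠ v) → s v = t v
    · rw [if_pos hd]
      unfold lift
      rw [if_neg]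
      intro he
      apply hc
      intro v hv
      by_cases hx : ∃ x : R, H4R2.toTorus L x + u = v
      · obtain ⟨x, rfl⟩ := hx
        exact he x fun hxB => hv ⟨x, hxB⟩ rfl
      · push Not at hx
        exact hd v hx
    · rw [if_neg hd]

theorem lift_eq {B R : Finset (ℤ × ℤ)} (hBR : B ⊆ R) (h : Matrix (B → Fin 2) (B → Fin 2) ℂ) :
    lift hBR h = Q234.PE.loc (fun x : B => (⟨x, hBR x.2⟩ : R)) h := by
  classical
  funext a b
  unfold lift Q234.PE.loc
  have h1 : (∀ x : R, (x : ℤ × ℤ) ∉ B → a x = b x) ↔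
      (∀ i : R, (∀ j : B, (⟨j, hBR j.2⟩ : R) ≠ i) → a i = b i) := by
    refine forall_congr' fun x => ?_
    have h2 : (x : ℤ × ℤ) ∉ B ↔ ∀ j : B, (⟨j, hBR j.2⟩ : R) ≠ x := by
      constructor
      · rintro h3 j rfl
        exact h3 j.2
      · intro h3 h4
        exact h3 ⟨x, h4⟩ rfl
    rw [h2]
  by_cases hc : ∀ x : R, (x : ℤ × ℤ) ∉ B → a x = b x
  · rw [if_pos hc, if_pos (h1.1 hc)]
  · rw [if_neg hc, if_neg (fun h' => hc (h1.2 h'))]

theorem main : LiftHam := by
  intro B R hBR h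
  refine ⟨fun L _ hL => ?_, fun c hc f => ?_⟩
  · unfold H4R2.ham
    exact sum_congr rfl fun u _ => term_eq hBR h L hL u
  · rw [lift_eq]
    exact normSq_loc_le (e := fun x : B => (⟨x, hBR x.2⟩ : R)) (fun x y hxy => Subtype.ext (congrArg (fun z : R => (z : ℤ × ℤ)) hxy)) h c hc f

end Pool.Agent.Q214.PE.LH
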